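import Pool.Agent.H242.GX.Stm6
import Pool.Agent.H441.GX.UNIQ

/-!
# GU-UNP (project of helper242): uniqueness to infinite order for general involutions

helper307.
-/

set_option autoImplicit false

open Set Filter Topology
open scoped ContDiff

namespace Pool.Agent.H307.GU

open Pool.Agent.H242.GX Pool.Agent.H441.GX

theorem gu_UNP (hEVN : S_EVN) (hUNQ : S_UNQ) (hPSI : S_PSI) (hBODY : S_BODY) : S_UNP := by
  intro p X Z hp hW U₁ U₂ Y₁ Y₂ H₁ H₂ y₁ y₂ κ hP₁ hP₂ hκ hI₁ hI₂ N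
  obtain ⟨hy₁, hHH₁, hpull₁, -⟩ := hP₁
  obtain ⟨hy₂, hHH₂, hpull₂, -⟩ := hP₂
  obtain ⟨X', Z', hW', hodd, -⟩ := hEVN X Z hW.toWeb κ hκ
  obtain ⟨hT, -, -, -⟩ := hBODY p hp
  have hne : (body p).Nonempty := hT.2.2.1.mono interior_subset
  obtain ⟨f, R, hR, hRper, hRel⟩ := hUNQ X' Z' hW' H₁ H₂ hHH₁.smooth hHH₂.smooth hHH₁.per
    hHH₂.per hHH₁.zero hHH₂.zero hHH₁.pos (hodd H₁ hI₁) (hodd H₂ hI₂) N
  obtain ⟨C, hC0, hC⟩ := bdd_strip R hR.continuous hRper (min y₁ y₂)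
  refine ⟨f, C, min y₁ y₂, lt_min hy₁ hy₂, fun z hz hzd => ?_⟩
  obtain ⟨y₃, -, -, -, hsur, -⟩ := hPSI p hp
  obtain ⟨φ, y, hy, rfl⟩ := hsur z hz
  have h1 : y ≤ Metric.infDist (Psi p φ y) (body p) := le_infDist p hne φ y
  have h2 : |y| < min y₁ y₂ := by
    rw [abs_of_nonneg hy]
    exact h1.trans_lt hzd
  obtain ⟨hU₁, hv₁⟩ := hpull₁ φ y (h2.trans_le (min_le_left _ _))
  obtain ⟨hU₂, hv₂⟩ := hpull₂ φ y (h2.trans_le (min_le_right _ _))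
  refine ⟨hU₁, hU₂, ?_⟩
  rw [← hv₁, ← hv₂, hRel φ y, add_sub_cancel_left, abs_mul, abs_pow, abs_of_nonneg hy, mul_comm]
  exact mul_le_mul (hC φ y h2.le) (pow_le_pow_left₀ hy h1 N) (by positivity) hC0

end Pool.Agent.H307.GU
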